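import Pool.Agent.W886.RU.Fin

/-!
# How many elements of a random set have to be changed to get `Δ₀ = ℰ²_*`?

Bounded formulas and Grzegorczyk's class `ℰ²` are relativized to a set `A` of natural numbers: in
bounded formulas the atomic formulas `t ∈ A` are allowed for all terms `t`, and the characteristic
function of `A` is added to the initial functions of `ℰ²`. Then `Δ₀(A) ⊆ ℰ²_*(A)`.

The number of changes is measured by a function `g`: the set `A` is obtained from `O` by changing,
for all large `N`, at most `g N` of the numbers below `N`. If `g N ≤ N ^ ε` for every `ε > 0` and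
infinitely many `N`, then, for almost every set `O`, the classes `Δ₀(A)` and `ℰ²_*(A)` are different
for all sets `A` that are obtained from `O` by at most `g` changes, however these changes depend on
`O`. Otherwise every set `O` can be changed, by at most `g` changes, into a set `A` with
`Δ₀(A) = ℰ²_*(A)`.

So the threshold is exactly at the functions `N ^ ε`.
-/

set_option autoImplicit false

namespace Pool.Agent.Results.MP_a56640_lc.ChangedElements

open Pool.Agent.W886.RU MeasureTheory Filter

theorem result (g : ℕ → ℝ) :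
    (∀ (A : ℕ → Bool) (k : ℕ) (R : (Fin k → ℕ) → Prop), Delta0 A k R → E2Star A k R) ∧
    ((∀ ε : ℝ, 0 < ε → ∃ᶠ N : ℕ in atTop, g N ≤ (N : ℝ) ^ ε) →
      ∀ᵐ O ∂randomSet, ∀ A : ℕ → Bool, Close g O A →
        ∃ R : (Fin 1 → ℕ) → Prop, E2Star A 1 R ∧ ¬ Delta0 A 1 R) ∧
    ((¬ ∀ ε : ℝ, 0 < ε → ∃ᶠ N : ℕ in atTop, g N ≤ (N : ℝ) ^ ε) →
      ∀ O : ℕ → Bool, ∃ A : ℕ → Bool, Close g O A ∧
        ∀ (k : ℕ) (R : (Fin k → ℕ) → Prop), Delta0 A k R ↔ E2Star A k R) := by
  refine ⟨Pool.Agent.W376.RUD0E2.task, fun hg => ?_, fun hg O => ?_⟩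
  · filter_upwards [par_far hg] with O hO A hA
    exact ⟨_, par_E2 A, hO A hA (Par A) (Eventually.of_forall fun _ => Iff.rfl)⟩
  · obtain ⟨A, h1, h2⟩ := close_E2 hg O
    exact ⟨A, h1, fun k R => (h2 k R).symm⟩

end Pool.Agent.Results.MP_a56640_lc.ChangedElements
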